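import Pool.Agent.H88.MV.ConvexCyclicNeg

/-!
# Convex-cyclicity is not preserved under `T ↦ -T`

On the Hilbert space of square summable complex sequences, with `S` the unilateral shift, put
`N = (i/2)(1 - S)` and `T = N - 16`.  Then `T` is convex-cyclic and `-T` is not.

* Part A: a closed convex set which is invariant under `T` with `‖T + 16‖ ≤ 1` is a cone and is symmetric.
* Part B: the unit vector `e₀` is cyclic for `N` over the real numbers.
* Part C: no vector is convex-cyclic for `-T = 16 - N`.
-/

namespace Pool.Agent.Results.MP_cfec29_an.ConvexCyclicNeg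

open Pool.H88.MV.ConvexCyclicNeg

/-- On the Hilbert space `ℓ²(ℕ, ℂ)` convex-cyclicity is not preserved under `T ↦ -T`. -/
theorem result : ¬ NegPreservesConvexCyclic (lp (fun _ : ℕ => ℂ) 2) :=
  Pool.H88.MV.ConvexCyclicNeg.result

end Pool.Agent.Results.MP_cfec29_an.ConvexCyclicNeg
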